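import Pool.Agent.Helper9.TN.Defs

/-!
# TN-6: two large primes
-/

set_option autoImplicit false

open Finset
open scoped Nat

namespace Pool.Agent.TN

/-- number of pairs with product at most `K` -/
private lemma c1_pairs (K : ℕ) :
    ((((Icc 1 K) ×ˢ (Icc 1 K)).filter (fun p : ℕ × ℕ => p.1 * p.2 ≤ K)).card : ℝ) ≤
      K * (1 + Real.log K) := by
  classical
  have h1 : (((Icc 1 K) ×ˢ (Icc 1 K)).filter (fun p : ℕ × ℕ => p.1 * p.2 ≤ K)).card ≤
      ∑ m ∈ Icc 1 K, K / m := by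
    rw [card_filter, sum_product]
    apply sum_le_sum
    intro m hm
    rw [← card_filter]
    have : (Icc 1 K).filter (fun b => m * b ≤ K) ⊆ Icc 1 (K / m) := by
      intro b hb
      rw [mem_filter, mem_Icc] at hb
      rw [mem_Icc]
      refine ⟨hb.1.1, ?_⟩
      rw [Nat.le_div_iff_mul_le (mem_Icc.1 hm).1]
      rw [mul_comm]
      exact hb.2
    calc _ ≤ (Icc 1 (K / m)).card := card_le_card this
      _ = K / m := by simp
  have h2 : ((∑ m ∈ Icc 1 K, K / m : ℕ) : ℝ) ≤ K * ∑ m ∈ Icc 1 K, (m : ℝ)⁻¹ := by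
    push_cast
    rw [mul_sum]
    apply sum_le_sum
    intro m _
    rw [← div_eq_mul_inv]
    exact Nat.cast_div_le
  have h3 : ∑ m ∈ Icc 1 K, (m : ℝ)⁻¹ ≤ 1 + Real.log K := by
    have h := harmonic_le_one_add_log K
    rw [harmonic_eq_sum_Icc] at h
    push_cast at h
    exact h
  have h4 : ((((Icc 1 K) ×ˢ (Icc 1 K)).filter (fun p : ℕ × ℕ => p.1 * p.2 ≤ K)).card : ℝ) ≤
      ((∑ m ∈ Icc 1 K, K / m : ℕ) : ℝ) := by exact_mod_cast h1
  refine h4.trans (h2.trans ?_)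
  exact mul_le_mul_of_nonneg_left h3 (Nat.cast_nonneg _)

private lemma c1_tot {m r n : ℕ} (hr : r.Prime) (hn : n = m * r) (h2 : ¬ r ^ 2 ∣ n) :
    φ n = φ m * (r - 1) := by
  subst hn
  have hc : Nat.Coprime m r := by
    rw [Nat.coprime_comm, hr.coprime_iff_not_dvd]
    intro h
    apply h2
    rw [pow_two]
    exact Nat.mul_dvd_mul h dvd_rfl
  rw [Nat.totient_mul hc, Nat.totient_prime hr]

/-- The pair of cofactors determines the integer. -/
private lemma c1_inj_aux {m m' r r' s s' : ℕ} (hm : 0 < m) (hm' : 0 < m')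
    (hr : r.Prime) (hr' : r'.Prime) (hs : s.Prime) (hs' : s'.Prime)
    (h1 : m * r + 1 = m' * r') (h2 : m * s + 1 = m' * s')
    (e1 : φ m * (r - 1) = φ m' * (r' - 1)) (e2 : φ m * (s - 1) = φ m' * (s' - 1)) :
    r = s := by
  by_contra hne
  have hr1 := hr.one_lt
  have hr'1 := hr'.one_lt
  have hs1 := hs.one_lt
  have hs'1 := hs'.one_lt
  have hφ : 0 < φ m := Nat.totient_pos.2 hm
  have hφ' : 0 < φ m' := Nat.totient_pos.2 hm'
  have h1z : (m : ℤ) * r + 1 = m' * r' := by exact_mod_cast h1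
  have h2z : (m : ℤ) * s + 1 = m' * s' := by exact_mod_cast h2
  have e1z : (φ m : ℤ) * (r - 1) = φ m' * (r' - 1) := by
    have := congrArg (Nat.cast (R := ℤ)) e1
    push_cast [Nat.cast_sub hr1.le, Nat.cast_sub hr'1.le] at this
    exact this
  have e2z : (φ m : ℤ) * (s - 1) = φ m' * (s' - 1) := by
    have := congrArg (Nat.cast (R := ℤ)) e2
    push_cast [Nat.cast_sub hs1.le, Nat.cast_sub hs'1.le] at this
    exact this
  have hne' : (r : ℤ) - s ≠ 0 := by
    intro h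
    apply hne
    have : (r : ℤ) = s := by linarith
    exact_mod_cast this
  -- subtract
  have d1 : (m : ℤ) * (r - s) = m' * (r' - s') := by linarith
  have d2 : (φ m : ℤ) * (r - s) = φ m' * (r' - s') := by linarith
  have d3 : ((φ m : ℤ) * m' - φ m' * m) * (r - s) = 0 := by
    have : ((φ m : ℤ) * m' - φ m' * m) * (r - s) =
        m' * ((φ m : ℤ) * (r - s)) - φ m' * (m * (r - s)) := by ring
    rw [this, d1, d2]
    ring
  have d4 : (φ m : ℤ) * m' = φ m' * m := by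
    rcases mul_eq_zero.1 d3 with h | h
    · linarith
    · exact absurd h hne'
  have hφz : (φ m : ℤ) ≠ 0 := by exact_mod_cast hφ.ne'
  have hm'z : (m' : ℤ) ≠ 0 := by exact_mod_cast hm'.ne'
  have d5 : ((φ m : ℤ) * m') * (m * (r - 1) - m' * (r' - 1)) = 0 := by
    have : ((φ m : ℤ) * m') * (m * (r - 1) - m' * (r' - 1)) =
        m * m' * ((φ m : ℤ) * (r - 1)) - ((φ m : ℤ) * m') * (m' * (r' - 1)) := by ring
    rw [this, e1z, d4]
    ring
  have d6 : (m : ℤ) * (r - 1) - m' * (r' - 1) = 0 := by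
    rcases mul_eq_zero.1 d5 with h | h
    · rcases mul_eq_zero.1 h with h | h
      · exact absurd h hφz
      · exact absurd h hm'z
    · exact h
  have d7 : (m' : ℤ) = m + 1 := by linarith
  have d8 : m' = m + 1 := by exact_mod_cast d7
  have d9 : φ m * m' = φ m' * m := by exact_mod_cast d4
  have hdvd : m' ∣ φ m' * m := Dvd.intro_left _ d9
  have hcop : Nat.Coprime m' m := by
    rw [d8]
    simp
  have hdvd2 : m' ∣ φ m' := hcop.dvd_of_dvd_mul_right hdvd
  have hlt : φ m' < m' := Nat.totient_lt m' (by omega)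
  exact absurd (Nat.le_of_dvd hφ' hdvd2) (not_le.2 hlt)

theorem caseI_count (N : ℕ) (X : ℝ) (hX : 1 ≤ X) (S : Finset ℕ)
    (hS : ∀ n ∈ S, 1 ≤ n ∧ n ≤ N ∧ φ n = φ (n + 1) ∧ ∃ r r' : ℕ, r.Prime ∧ r'.Prime ∧
      r ∣ n ∧ r' ∣ n + 1 ∧ ¬ r ^ 2 ∣ n ∧ ¬ r' ^ 2 ∣ n + 1 ∧
      ((n * (n + 1) : ℕ) : ℝ) ≤ X * (r * r')) : (S.card : ℝ) ≤ X * (1 + Real.log X) := by
  classical
  have hex : ∀ n : ℕ, ∃ q : (ℕ × ℕ) × (ℕ × ℕ), n ∈ S → (0 < q.1.1 ∧ 0 < q.1.2 ∧
      q.2.1.Prime ∧ q.2.2.Prime ∧ n = q.1.1 * q.2.1 ∧ n + 1 = q.1.2 * q.2.2 ∧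
      φ q.1.1 * (q.2.1 - 1) = φ q.1.2 * (q.2.2 - 1) ∧ ((q.1.1 * q.1.2 : ℕ) : ℝ) ≤ X) := by
    intro n
    by_cases hn : n ∈ S
    · obtain ⟨h1, _, hφ, r, r', hr, hr', ⟨m, hm⟩, ⟨m', hm'⟩, hr2, hr'2, hle⟩ := hS n hn
      refine ⟨((m, m'), (r, r')), fun _ => ?_⟩
      have hm0 : 0 < m := by
        rcases Nat.eq_zero_or_pos m with h | h
        · subst h; omega
        · exact h
      have hm'0 : 0 < m' := by
        rcases Nat.eq_zero_or_pos m' with h | h
        · subst h; omega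
        · exact h
      rw [mul_comm] at hm hm'
      refine ⟨hm0, hm'0, hr, hr', hm, hm', ?_, ?_⟩
      · have a1 := c1_tot hr hm hr2
        have a2 := c1_tot hr' hm' hr'2
        simp only
        rw [← a1, ← a2]
        exact hφ
      · have hr0 : (0 : ℝ) < r := by exact_mod_cast hr.pos
        have hr'0 : (0 : ℝ) < r' := by exact_mod_cast hr'.pos
        have e : ((n * (n + 1) : ℕ) : ℝ) = ((m * m' : ℕ) : ℝ) * (r * r') := by
          rw [hm', hm]
          push_cast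
          ring
        rw [e] at hle
        exact le_of_mul_le_mul_right hle (by positivity)
    · exact ⟨((0, 0), (0, 0)), fun h => absurd h hn⟩
  choose f hf using hex
  set K := ⌊X⌋₊ with hK
  have hX0 : 0 ≤ X := by linarith
  have hKX : (K : ℝ) ≤ X := Nat.floor_le hX0
  have hK1 : 1 ≤ K := by
    rw [hK, Nat.one_le_floor_iff]
    exact hX
  have hcard : S.card ≤ (((Icc 1 K) ×ˢ (Icc 1 K)).filter
      (fun p : ℕ × ℕ => p.1 * p.2 ≤ K)).card := by
    apply card_le_card_of_injOn (fun n => (f n).1)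
    · intro n hn
      obtain ⟨h1, h2, _, _, _, _, _, h8⟩ := hf n hn
      have h9 : (f n).1.1 * (f n).1.2 ≤ K := Nat.le_floor h8
      have h10 : (f n).1.1 ≤ K := (Nat.le_mul_of_pos_right _ h2).trans h9
      have h11 : (f n).1.2 ≤ K := (Nat.le_mul_of_pos_left _ h1).trans h9
      simp only [coe_filter, mem_product, mem_Icc, Set.mem_ofPred_eq]
      exact ⟨⟨⟨h1, h10⟩, ⟨h2, h11⟩⟩, h9⟩
    · intro n hn n' hn' heq
      obtain ⟨h1, h2, h3, h4, h5, h6, h7, _⟩ := hf n hn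
      obtain ⟨_, _, k3, k4, k5, k6, k7, _⟩ := hf n' hn'
      simp only at heq
      rw [← heq] at k5 k6 k7
      have := c1_inj_aux h1 h2 h3 h4 k3 k4 (by rw [← h5]; exact h6) (by rw [← k5]; exact k6)
        h7 k7
      rw [h5, k5, this]
  have hc : (S.card : ℝ) ≤ K * (1 + Real.log K) := by
    refine le_trans ?_ (c1_pairs K)
    exact_mod_cast hcard
  refine hc.trans ?_
  have hKr : (1 : ℝ) ≤ K := by exact_mod_cast hK1
  have hlog : Real.log K ≤ Real.log X := Real.log_le_log (by linarith) hKX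
  have hlog0 : 0 ≤ Real.log K := Real.log_nonneg hKr
  exact mul_le_mul hKX (by linarith) (by linarith) hX0

end Pool.Agent.TN
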