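import Pool.Agent.Helper9.TN.Basic

/-!
# TN-5a: the exceptional part, Rankin trick
-/

set_option autoImplicit false

open Finset
open scoped Nat

namespace Pool.Agent.TN

private noncomputable def Hf (g : ℕ → ℝ) (n : ℕ) : ℝ := ∏ r ∈ n.primeFactors, g r

private lemma Hf_mul (g : ℕ → ℝ) {m n : ℕ} (h : Nat.Coprime m n) :
    Hf g (m * n) = Hf g m * Hf g n := by
  unfold Hf
  rw [h.primeFactors_mul, prod_union h.disjoint_primeFactors]

private lemma Hf_prime_pow (g : ℕ → ℝ) {p k : ℕ} (hp : p.Prime) (hk : k ≠ 0) :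
    Hf g (p ^ k) = g p := by
  unfold Hf
  rw [Nat.primeFactors_prime_pow hk hp, prod_singleton]

private lemma Hf_one (g : ℕ → ℝ) : Hf g 1 = 1 := by simp [Hf]

private lemma rk_tsum_pp (g : ℕ → ℝ) {p : ℕ} (hp : p.Prime) :
    HasSum (fun n : ℕ => Hf g (p ^ n) / ((p ^ n : ℕ) : ℝ)) (1 + g p / ((p : ℝ) - 1)) := by
  have hp1 : (1 : ℝ) < p := by exact_mod_cast hp.one_lt
  have h0 : (0 : ℝ) < p := by linarith
  have h1 : HasSum (fun n : ℕ => (1 / (p : ℝ)) ^ n) (1 - 1 / (p : ℝ))⁻¹ :=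
    hasSum_geometric_of_lt_one (by positivity) (by rw [div_lt_one h0]; exact hp1)
  have h2 : HasSum (fun n : ℕ => g p / p * (1 / (p : ℝ)) ^ n) (g p / p * (1 - 1 / (p : ℝ))⁻¹) :=
    h1.mul_left _
  have h3 : g p / p * (1 - 1 / (p : ℝ))⁻¹ = g p / ((p : ℝ) - 1) := by
    have : (p : ℝ) - 1 ≠ 0 := by linarith
    field_simp
  rw [h3] at h2
  rw [← hasSum_nat_add_iff' 1]
  simp only [range_one, sum_singleton, pow_zero]
  rw [Hf_one]
  simp only [Nat.cast_one, div_one, add_sub_cancel_left]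
  have h5 : (fun n : ℕ => Hf g (p ^ (n + 1)) / ((p ^ (n + 1) : ℕ) : ℝ)) =
      fun n : ℕ => g p / p * (1 / (p : ℝ)) ^ n := by
    funext n
    rw [Hf_prime_pow g hp (Nat.succ_ne_zero n)]
    push_cast
    rw [one_div, inv_pow]
    field_simp
    ring
  rw [h5]
  exact h2

private lemma rk_sum_le_prod (g : ℕ → ℝ) (hg : ∀ n, 0 ≤ g n) (N : ℕ) :
    ∑ n ∈ Icc 1 N, Hf g n / (n : ℝ) ≤
      ∏ p ∈ (Icc 1 N).filter Nat.Prime, (1 + g p / ((p : ℝ) - 1)) := by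
  classical
  have h1 : (fun n : ℕ => Hf g n / (n : ℝ)) 1 = 1 := by simp [Hf]
  have hmul : ∀ {m n : ℕ}, Nat.Coprime m n → (fun n : ℕ => Hf g n / (n : ℝ)) (m * n) =
      (fun n : ℕ => Hf g n / (n : ℝ)) m * (fun n : ℕ => Hf g n / (n : ℝ)) n := by
    intro m n h
    simp only
    rw [Hf_mul g h]
    push_cast
    rw [mul_div_mul_comm]
  have hnn : ∀ n : ℕ, 0 ≤ Hf g n / (n : ℝ) := fun n =>
    div_nonneg (prod_nonneg fun _ _ => hg _) (Nat.cast_nonneg _)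
  have hsum : ∀ {p : ℕ}, p.Prime →
      Summable (fun n : ℕ => ‖(fun n : ℕ => Hf g n / (n : ℝ)) (p ^ n)‖) := by
    intro p hp
    have := (rk_tsum_pp g hp).summable
    refine this.congr fun n => ?_
    simp only
    rw [Real.norm_of_nonneg (hnn _)]
  have key := EulerProduct.summable_and_hasSum_factoredNumbers_prod_filter_prime_tsum
    (f := fun n : ℕ => Hf g n / (n : ℝ)) h1 hmul (fun hp => hsum hp) (Icc 1 N)
  have h2 : ∏ p ∈ (Icc 1 N).filter Nat.Prime, (1 + g p / ((p : ℝ) - 1)) =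
      ∏ p ∈ Icc 1 N with p.Prime, ∑' n : ℕ, (fun n : ℕ => Hf g n / (n : ℝ)) (p ^ n) := by
    refine prod_congr rfl fun p hp => ?_
    exact (rk_tsum_pp g (mem_filter.1 hp).2).tsum_eq.symm
  rw [h2]
  have h3 : ∀ n ∈ Icc 1 N, n ∈ Nat.factoredNumbers (Icc 1 N) := by
    intro n hn
    rw [mem_Icc] at hn
    refine ⟨by omega, ?_⟩
    intro q hq
    rw [mem_Icc]
    exact ⟨(Nat.prime_of_mem_primeFactorsList hq).pos,
      (Nat.le_of_mem_primeFactorsList hq).trans hn.2⟩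
  have h4 : ∑ n ∈ Icc 1 N, Hf g n / (n : ℝ) =
      ∑ n ∈ (Icc 1 N).attach.image (fun n => (⟨n.1, h3 n.1 n.2⟩ : Nat.factoredNumbers (Icc 1 N))),
        Hf g (n : ℕ) / ((n : ℕ) : ℝ) := by
    rw [sum_image]
    · exact (sum_attach (Icc 1 N) (fun n => Hf g n / (n : ℝ))).symm
    · intro a _ b _ hab
      simp only [Subtype.mk.injEq] at hab
      exact Subtype.ext hab
  rw [h4]
  exact sum_le_hasSum _ (fun _ _ => hnn _) key.2

theorem exc_rankin {N y : ℕ} {β A : ℝ} (hβ : 0 ≤ β) (hA : 0 < A) (S : Finset ℕ)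
    (hS : ∀ n ∈ S, 1 ≤ n ∧ n ≤ N ∧ A ≤ (sm y (U n) : ℝ)) :
    (S.card : ℝ) ≤ N * A ^ (-β) * Real.exp (∑ r ∈ (Finset.Icc 1 N).filter Nat.Prime,
      (sm y (r - 1) : ℝ) ^ β / (r - 1)) := by
  classical
  set g : ℕ → ℝ := fun r => (sm y (r - 1) : ℝ) ^ β with hgdef
  have hg : ∀ n, 0 ≤ g n := fun n => Real.rpow_nonneg (Nat.cast_nonneg _) _
  have hH : ∀ n : ℕ, (sm y (U n) : ℝ) ^ β = Hf g n := by
    intro n
    unfold U Hf
    rw [sm_prod]
    · push_cast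
      rw [← Real.finsetProd_rpow _ _ (fun i _ => Nat.cast_nonneg _)]
    · intro r hr
      have := (Nat.prime_of_mem_primeFactors hr).two_le
      omega
  have hSI : S ⊆ Icc 1 N := by
    intro n hn
    obtain ⟨h1, h2, _⟩ := hS n hn
    exact mem_Icc.2 ⟨h1, h2⟩
  have hone : ∀ n ∈ S, (1 : ℝ) ≤ N * A ^ (-β) * (Hf g n / n) := by
    intro n hn
    obtain ⟨h1, h2, h3⟩ := hS n hn
    rw [← hH n]
    have hn0 : (0 : ℝ) < n := by exact_mod_cast h1
    have hnN : (n : ℝ) ≤ N := by exact_mod_cast h2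
    have hA1 : A ^ β ≤ (sm y (U n) : ℝ) ^ β := Real.rpow_le_rpow hA.le h3 hβ
    have hAp : 0 < A ^ β := Real.rpow_pos_of_pos hA β
    rw [Real.rpow_neg hA.le]
    have e1 : (N : ℝ) * (A ^ β)⁻¹ * ((sm y (U n) : ℝ) ^ β / n) =
        (N / n) * ((sm y (U n) : ℝ) ^ β / A ^ β) := by
      field_simp
    rw [e1]
    have e2 : (1 : ℝ) ≤ N / n := by rw [le_div_iff₀ hn0]; linarith
    have e3 : (1 : ℝ) ≤ (sm y (U n) : ℝ) ^ β / A ^ β := by rw [le_div_iff₀ hAp]; linarith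
    nlinarith
  have hNA : 0 ≤ N * A ^ (-β) := by positivity
  have hstep : (S.card : ℝ) ≤ N * A ^ (-β) * ∑ n ∈ Icc 1 N, Hf g n / (n : ℝ) := by
    calc (S.card : ℝ) = ∑ n ∈ S, (1 : ℝ) := by simp
      _ ≤ ∑ n ∈ S, N * A ^ (-β) * (Hf g n / n) := sum_le_sum hone
      _ ≤ ∑ n ∈ Icc 1 N, N * A ^ (-β) * (Hf g n / n) := by
          apply sum_le_sum_of_subset_of_nonneg hSI
          intro n _ _
          exact mul_nonneg hNA (div_nonneg (prod_nonneg fun _ _ => hg _) (Nat.cast_nonneg _))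
      _ = _ := by rw [mul_sum]
  refine hstep.trans (mul_le_mul_of_nonneg_left ?_ hNA)
  refine (rk_sum_le_prod g hg N).trans ?_
  rw [Real.exp_sum]
  apply prod_le_prod
  · intro p hp
    have hp1 : (1 : ℝ) < p := by exact_mod_cast (mem_filter.1 hp).2.one_lt
    have : (0 : ℝ) < (p : ℝ) - 1 := by linarith
    have := hg p
    positivity
  · intro p _
    have := Real.add_one_le_exp (g p / ((p : ℝ) - 1))
    simp only [hgdef] at this ⊢
    linarith

end Pool.Agent.TN
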